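import Pool.Agent.H532R2.MC.Defs

/-!
# Computations with few NOT gates and the minimum size problems

(helper943)
-/

namespace Pool.Agent.H943R6.NG

open Pool.Agent.H532R2.MC Finset

/-- The output of a computation with `r` questions. The list `a` contains the answers to the first
questions; `m a` is the next question, and, when there are `r` answers, the output. For functions
`m a` which are all monotone this is a circuit with `r` NOT gates and arbitrary monotone gates: the
input of each NOT gate is a monotone function once the values of the former NOT gates are given. -/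
def out {X : Type} : ℕ → (List Bool → X → Bool) → X → Bool
  | 0, m, T => m [] T
  | r + 1, m, T => out r (fun a => m (m [] T :: a)) T

/-- Markov: along a chain `a₀ ≤ b₀ ≤ a₁ ≤ b₁ ≤ ...` the output of a computation with `r` NOT gates
drops from `1` to `0` between `aᵢ` and `bᵢ` for less than `2 ^ r` indices `i`. -/
theorem markov {X : Type} [Preorder X] (a b : ℕ → X) (hab : ∀ i, a i ≤ b i)
    (hba : ∀ i j, i < j → b i ≤ a j) : ∀ (r : ℕ) (m : List Bool → X → Bool)
    (_ : ∀ l, Monotone (m l)) (I : Finset ℕ)
    (_ : ∀ i ∈ I, out r m (a i) = true ∧ out r m (b i) = false), I.card + 1 ≤ 2 ^ r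
  | 0, m, hm, I, hI => by
    have : I = ∅ := by
      rw [Finset.eq_empty_iff_forall_notMem]
      intro i hi
      obtain ⟨h1, h2⟩ := hI i hi
      have h3 := hm [] (hab i)
      simp only [out] at h1 h2
      rw [h1, h2] at h3
      exact absurd h3 (by decide)
    simp [this]
  | r + 1, m, hm, I, hI => by
    have hm' : ∀ c, ∀ l, Monotone (fun T => m (c :: l) T) := fun c l => hm (c :: l)
    have h0 := markov a b hab hba r (fun l => m (false :: l)) (fun l => hm _)
      (I.filter fun i => m [] (b i) = false) (by
        intro i hi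
        rw [Finset.mem_filter] at hi
        obtain ⟨h1, h2⟩ := hI i hi.1
        have h3 : m [] (a i) = false := by
          have h4 := hm [] (hab i)
          rw [hi.2] at h4
          cases h : m [] (a i)
          · rfl
          · rw [h] at h4; exact absurd h4 (by decide)
        simp only [out, h3, hi.2] at h1 h2
        exact ⟨h1, h2⟩)
    have h1 := markov a b hab hba r (fun l => m (true :: l)) (fun l => hm _)
      (I.filter fun i => m [] (a i) = true) (by
        intro i hi
        rw [Finset.mem_filter] at hi
        obtain ⟨h1, h2⟩ := hI i hi.1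
        have h3 : m [] (b i) = true := by
          have h4 := hm [] (hab i)
          rw [hi.2] at h4
          cases h : m [] (b i)
          · rw [h] at h4; exact absurd h4 (by decide)
          · rfl
        simp only [out, h3, hi.2] at h1 h2
        exact ⟨h1, h2⟩)
    have h2 : (I.filter fun i => m [] (a i) = false ∧ m [] (b i) = true).card ≤ 1 := by
      rw [Finset.card_le_one]
      have key : ∀ i j, i < j → m [] (b i) = true → m [] (a j) = false → False := by
        intro i j hij h3 h4
        have h5 := hm [] (hba i j hij)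
        rw [h3, h4] at h5
        exact absurd h5 (by decide)
      intro i hi j hj
      rw [Finset.mem_filter] at hi hj
      rcases lt_trichotomy i j with h | h | h
      · exact (key i j h hi.2.2 hj.2.1).elim
      · exact h
      · exact (key j i h hj.2.2 hi.2.1).elim
    have h3 : I ⊆ (I.filter fun i => m [] (b i) = false) ∪ (I.filter fun i => m [] (a i) = true) ∪
        (I.filter fun i => m [] (a i) = false ∧ m [] (b i) = true) := by
      intro i hi
      simp only [Finset.mem_union, Finset.mem_filter]
      cases h4 : m [] (a i) <;> cases h5 : m [] (b i) <;> simp [hi]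
    have h4 := (Finset.card_le_card h3).trans
      ((Finset.card_union_le _ _).trans (Nat.add_le_add_right (Finset.card_union_le _ _) _))
    rw [pow_succ]
    omega

/-! ### The chain of the threshold functions -/

/-- the number with the binary digits `x` (the first digit is the highest one) -/
def val : (n : ℕ) → (Fin n → Bool) → ℕ
  | 0, _ => 0
  | n + 1, x => (if x 0 then 2 ^ n else 0) + val n (Fin.tail x)

theorem val_lt : ∀ (n : ℕ) (x : Fin n → Bool), val n x < 2 ^ n
  | 0, _ => by simp [val]
  | n + 1, x => by
    have h := val_lt n (Fin.tail x)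
    simp only [val]
    rw [pow_succ]
    split_ifs <;> omega

theorem val_inj : ∀ (n : ℕ), Function.Injective (val n)
  | 0 => fun x y _ => funext fun i => i.elim0
  | n + 1 => by
    intro x y h
    simp only [val] at h
    have h1 := val_lt n (Fin.tail x)
    have h2 := val_lt n (Fin.tail y)
    have h3 : x 0 = y 0 := by
      cases hx : x 0 <;> cases hy : y 0 <;> simp only [hx, hy] at h <;> first | rfl | (simp at h; omega)
    have h4 : val n (Fin.tail x) = val n (Fin.tail y) := by
      rw [h3] at h
      omega
    have h5 := val_inj n h4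
    rw [← Fin.cons_self_tail x, ← Fin.cons_self_tail y, h3, h5]

theorem val_surj (n : ℕ) (k : ℕ) (hk : k < 2 ^ n) : ∃ x, val n x = k := by
  have h1 : Function.Injective (fun x : Fin n → Bool => (⟨val n x, val_lt n x⟩ : Fin (2 ^ n))) := by
    intro x y h
    exact val_inj n (congrArg Fin.val h)
  have h2 : Function.Bijective (fun x : Fin n → Bool => (⟨val n x, val_lt n x⟩ : Fin (2 ^ n))) := by
    rw [Fintype.bijective_iff_injective_and_card]
    exact ⟨h1, by simp⟩
  obtain ⟨x, hx⟩ := h2.2 ⟨k, hk⟩
  exact ⟨x, congrArg Fin.val hx⟩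

/-- the threshold function -/
def thr (n k : ℕ) : BF n := fun x => decide (val n x < k)

theorem thr_succ_le {n k : ℕ} (hk : k ≤ 2 ^ n) (x : Fin (n + 1) → Bool) :
    thr (n + 1) k x = (!x 0 && thr n k (Fin.tail x)) := by
  by_cases h : x 0 = true
  · have e1 : thr (n + 1) k x = decide (2 ^ n + val n (Fin.tail x) < k) := by simp [thr, val, h]
    rw [e1, h]
    simp
    omega
  · have h' : x 0 = false := by simpa using h
    simp [thr, val, h']

theorem thr_succ_ge {n k : ℕ} (hk : 2 ^ n < k) (x : Fin (n + 1) → Bool) :
    thr (n + 1) k x = (!x 0 || thr n (k - 2 ^ n) (Fin.tail x)) := by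
  have hv := val_lt n (Fin.tail x)
  by_cases h : x 0 = true
  · have e1 : thr (n + 1) k x = decide (2 ^ n + val n (Fin.tail x) < k) := by simp [thr, val, h]
    rw [e1, h]
    simp only [thr, Bool.not_true, Bool.false_or, decide_eq_decide]
    omega
  · have h' : x 0 = false := by simpa using h
    have e1 : thr (n + 1) k x = decide (val n (Fin.tail x) < k) := by simp [thr, val, h']
    rw [e1, h']
    simp
    omega

/-- the functions between two threshold functions -/
def mid (n b i : ℕ) (c : Fin (2 ^ b) → Bool) : BF n := fun x =>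
  if val n x < i * 2 ^ b then true
  else if h : val n x - i * 2 ^ b < 2 ^ b then c ⟨val n x - i * 2 ^ b, h⟩ else false

theorem thr_le_mid (n b i : ℕ) (c : Fin (2 ^ b) → Bool) : thr n (i * 2 ^ b) ≤ mid n b i c := by
  intro x
  by_cases h : val n x < i * 2 ^ b
  · simp [mid, h]
  · simp [thr, h]

theorem mid_le_thr (n b i j : ℕ) (hij : i < j) (c : Fin (2 ^ b) → Bool) :
    mid n b i c ≤ thr n (j * 2 ^ b) := by
  intro x
  have h1 : (i + 1) * 2 ^ b ≤ j * 2 ^ b := Nat.mul_le_mul_right _ hij
  by_cases h : val n x < j * 2 ^ b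
  · simp [thr, h]
  · rw [add_mul, one_mul] at h1
    have h0 : 0 < 2 ^ b := by positivity
    have h2 : ¬ val n x < i * 2 ^ b := by
      generalize 2 ^ b = B at *
      generalize i * B = u at *
      omega
    have h3 : ¬ val n x - i * 2 ^ b < 2 ^ b := by
      generalize 2 ^ b = B at *
      generalize i * B = u at *
      omega
    simp [mid, h2, h3]

theorem mid_inj {n b i : ℕ} (hi : (i + 1) * 2 ^ b ≤ 2 ^ n) : Function.Injective (mid n b i) := by
  intro c c' h
  funext k
  obtain ⟨x, hx⟩ := val_surj n (i * 2 ^ b + k) (by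
    have : (i + 1) * 2 ^ b = i * 2 ^ b + 2 ^ b := by ring
    have := k.2
    omega)
  have h1 := congrFun h x
  have h2 : ¬ val n x < i * 2 ^ b := by omega
  have h3 : val n x - i * 2 ^ b = k := by omega
  simp only [mid, h2, if_false, h3, k.2, dif_pos] at h1
  exact h1

theorem exists_mid {n b i : ℕ} (hi : (i + 1) * 2 ^ b ≤ 2 ^ n) (S : Finset (BF n))
    (hS : S.card < 2 ^ 2 ^ b) : ∃ c, mid n b i c ∉ S := by
  classical
  by_contra hcon
  push Not at hcon
  have h1 : (univ.image (mid n b i)).card = 2 ^ 2 ^ b := by
    rw [Finset.card_image_of_injective _ (mid_inj hi)]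
    simp
  have h2 : (univ.image (mid n b i)) ⊆ S := by
    intro f hf
    rw [Finset.mem_image] at hf
    obtain ⟨c, _, rfl⟩ := hf
    exact hcon c
  have h3 := Finset.card_le_card h2
  omega

/-- The abstract bound: `S` contains the easy functions for the larger size bound. -/
theorem key {n b r : ℕ} (hb : b ≤ n) (S : Finset (BF n)) (hS : S.card < 2 ^ 2 ^ b)
    {Ω : Type} [Fintype Ω] (w : Ω → ℝ) (hw : ∀ ω, 0 ≤ w ω) (hsum : ∑ ω, w ω = 1)
    (m : Ω → List Bool → BF n → Bool) (hm : ∀ ω l, Monotone (m ω l)) (p q : ℝ)
    (hyes : ∀ k, p ≤ ∑ ω, if out r (m ω) (thr n k) = true then w ω else 0)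
    (hno : ∀ f ∉ S, ∑ ω, (if out r (m ω) f = true then w ω else 0) ≤ q) :
    (p - q) * 2 ^ (n - b) ≤ 2 ^ r - 1 := by
  classical
  have h0 : ∀ i < 2 ^ (n - b), (i + 1) * 2 ^ b ≤ 2 ^ n := by
    intro i hi
    calc (i + 1) * 2 ^ b ≤ 2 ^ (n - b) * 2 ^ b := Nat.mul_le_mul_right _ hi
      _ = 2 ^ n := by rw [← pow_add]; congr 1; omega
  have h1 : ∀ i, ∃ c : Fin (2 ^ b) → Bool, i < 2 ^ (n - b) → mid n b i c ∉ S := by
    intro i
    by_cases hi : i < 2 ^ (n - b)
    · obtain ⟨c, hc⟩ := exists_mid (h0 i hi) S hS
      exact ⟨c, fun _ => hc⟩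
    · exact ⟨fun _ => false, fun h => absurd h hi⟩
  choose c hc using h1
  have h2 : ∀ ω, ((Finset.range (2 ^ (n - b))).filter fun i =>
      out r (m ω) (thr n (i * 2 ^ b)) = true ∧ out r (m ω) (mid n b i (c i)) = false).card + 1 ≤
      2 ^ r := fun ω => markov (fun i => thr n (i * 2 ^ b)) (fun i => mid n b i (c i))
        (fun i => thr_le_mid n b i _) (fun i j hij => mid_le_thr n b i j hij _) r (m ω) (hm ω) _
        (fun i hi => (Finset.mem_filter.1 hi).2)
  have h3 : ∀ ω, (∑ i ∈ Finset.range (2 ^ (n - b)),
      ((if out r (m ω) (thr n (i * 2 ^ b)) = true then w ω else 0) -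
        (if out r (m ω) (mid n b i (c i)) = true then w ω else 0))) ≤ (2 ^ r - 1) * w ω := by
    intro ω
    have h4 : ∀ i ∈ Finset.range (2 ^ (n - b)),
        ((if out r (m ω) (thr n (i * 2 ^ b)) = true then w ω else 0) -
        (if out r (m ω) (mid n b i (c i)) = true then w ω else 0)) ≤
        if (out r (m ω) (thr n (i * 2 ^ b)) = true ∧ out r (m ω) (mid n b i (c i)) = false)
          then w ω else 0 := by
      intro i _
      have := hw ω
      cases h5 : out r (m ω) (thr n (i * 2 ^ b)) <;> cases h6 : out r (m ω) (mid n b i (c i)) <;>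
        simp [this]
    refine (Finset.sum_le_sum h4).trans ?_
    rw [← Finset.sum_filter, Finset.sum_const, nsmul_eq_mul]
    apply mul_le_mul_of_nonneg_right _ (hw ω)
    have h7 : (((Finset.range (2 ^ (n - b))).filter fun i =>
      out r (m ω) (thr n (i * 2 ^ b)) = true ∧ out r (m ω) (mid n b i (c i)) = false).card : ℝ) +
      1 ≤ 2 ^ r := by exact_mod_cast h2 ω
    linarith
  calc (p - q) * 2 ^ (n - b) = ∑ i ∈ Finset.range (2 ^ (n - b)), (p - q) := by
        rw [Finset.sum_const, Finset.card_range, nsmul_eq_mul]; push_cast; ring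
    _ ≤ ∑ i ∈ Finset.range (2 ^ (n - b)),
        ((∑ ω, if out r (m ω) (thr n (i * 2 ^ b)) = true then w ω else 0) -
          ∑ ω, (if out r (m ω) (mid n b i (c i)) = true then w ω else 0)) := by
        apply Finset.sum_le_sum
        intro i hi
        have h8 := hyes (i * 2 ^ b)
        have h9 := hno _ (hc i (Finset.mem_range.1 hi))
        linarith
    _ = ∑ ω, ∑ i ∈ Finset.range (2 ^ (n - b)),
        ((if out r (m ω) (thr n (i * 2 ^ b)) = true then w ω else 0) -
          (if out r (m ω) (mid n b i (c i)) = true then w ω else 0)) := by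
        rw [Finset.sum_comm]
        apply Finset.sum_congr rfl
        intro i _
        rw [Finset.sum_sub_distrib]
    _ ≤ ∑ ω, (2 ^ r - 1) * w ω := Finset.sum_le_sum fun ω _ => h3 ω
    _ = 2 ^ r - 1 := by rw [← Finset.mul_sum, hsum, mul_one]

end Pool.Agent.H943R6.NG
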