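import Pool.Agent.H943R6.NG.Base
import Pool.Agent.H532R2.MC.Count
import Pool.Agent.H532R2.MC.HashCost
import Pool.Agent.H561R2.RO.Table

/-!
# Computations with few NOT gates and the minimum circuit size problem

(helper943)
-/

namespace Pool.Agent.H943R6.NG

open Pool.Agent.H532R2.MC Finset

theorem cst_tail {n s : ℕ} {g : BF n} (h : Cst (vars n) g s) :
    Cst (vars (n + 1)) (fun x => g (Fin.tail x)) s := by
  obtain ⟨L, t, h1, h2, h3⟩ := h
  refine ⟨_, t, (h1.precomp (fun x : Fin (n + 1) → Bool => (Fin.tail x : Fin n → Bool))).mono ?_,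
    ?_, h3⟩
  · rintro f ⟨f', ⟨i, rfl⟩, rfl⟩
    exact ⟨i.succ, rfl⟩
  · intro f hf
    rw [Set.mem_singleton_iff] at hf
    subst hf
    exact List.mem_map.2 ⟨g, h2 g rfl, rfl⟩

theorem cst_thr : ∀ (n : ℕ), 1 ≤ n → ∀ k, Cst (vars n) (thr n k) n
  | 0, h, _ => absurd h (by norm_num)
  | 1, _, k => by
    rcases Nat.lt_or_ge k 1 with h | h
    · refine (cst_const one_pos false).congr fun x => ?_
      simp only [thr, val]
      simp
      omega
    · rcases Nat.lt_or_ge k 2 with h' | h'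
      · have hk : k = 1 := by omega
        subst hk
        refine ((Cst.of_mem (vars_mem (0 : Fin 1))).not.mono subset_rfl (by norm_num)).congr
          fun x => ?_
        simp only [thr, val]
        cases x 0 <;> simp
      · refine (cst_const one_pos true).congr fun x => ?_
        have := val_lt 1 x
        simp only [thr]
        simp
        omega
  | n + 2, _, k => by
    have ih := cst_thr (n + 1) (by omega)
    have h0 : Cst (vars (n + 2)) (fun x => !x 0) 0 := (Cst.of_mem (vars_mem (0 : Fin (n + 2)))).not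
    rcases Nat.lt_or_ge (2 ^ (n + 1)) k with h | h
    · refine ((h0.or (cst_tail (ih (k - 2 ^ (n + 1))))).mono subset_rfl (by omega)).congr
        fun x => ?_
      exact (thr_succ_ge h x).symm
    · refine ((h0.and (cst_tail (ih k))).mono subset_rfl (by omega)).congr fun x => ?_
      exact (thr_succ_le h x).symm

theorem mcsp_bound (n r s₁ s₂ : ℕ) (hn : 48 ≤ n) (h1 : n ≤ s₁) (h12 : s₁ ≤ s₂)
    (h2 : 2 * (n * (s₂ + 2)) ≤ 2 ^ n) {Ω : Type} [Fintype Ω] (w : Ω → ℝ) (hw : ∀ ω, 0 ≤ w ω)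
    (hsum : ∑ ω, w ω = 1) (m : Ω → List Bool → BF n → Bool) (hm : ∀ ω l, Monotone (m ω l))
    (p q : ℝ)
    (hyes : ∀ f : BF n, MCSP n (table n f) s₁ → p ≤ ∑ ω, if out r (m ω) f = true then w ω else 0)
    (hno : ∀ f : BF n, ¬ MCSP n (table n f) s₂ →
      ∑ ω, (if out r (m ω) f = true then w ω else 0) ≤ q) :
    (p - q) * 2 ^ n ≤ (2 ^ r - 1) * (2 * (n * (s₂ + 2))) := by
  classical
  set B := n * (s₂ + 2) with hB
  have hB0 : B ≠ 0 := by
    have : 0 < n * (s₂ + 2) := by positivity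
    omega
  set b := Nat.log 2 B + 1 with hb
  have hb1 : B < 2 ^ b := Nat.lt_pow_succ_log_self (by norm_num) B
  have hb2 : 2 ^ b ≤ 2 * B := by
    rw [hb, pow_succ]
    have := Nat.pow_log_le_self 2 hB0
    omega
  have hbn : b ≤ n := by
    have h3 : 2 ^ b ≤ 2 ^ n := hb2.trans h2
    exact (Nat.pow_le_pow_iff_right (by norm_num)).1 h3
  have h96 : 96 * s₂ ≤ 2 ^ n := by
    refine le_trans ?_ h2
    rw [hB]
    nlinarith
  have hcard : (small n s₂).card < 2 ^ 2 ^ b := by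
    refine lt_of_le_of_lt (shannon (h1.trans h12) h96) ?_
    have h4 : 4 * s₂ * (s₂ + 1) < 2 ^ (2 * n) := by
      have h5 : 2 ^ (2 * n) = 2 ^ n * 2 ^ n := by rw [two_mul, pow_add]
      rw [h5]
      have h6 : 4 * s₂ * (s₂ + 1) < (96 * s₂) * (96 * s₂) := by nlinarith [h1, hn]
      exact lt_of_lt_of_le h6 (Nat.mul_le_mul h96 h96)
    calc 4 * s₂ * (s₂ + 1) * 2 ^ (n * s₂) < 2 ^ (2 * n) * 2 ^ (n * s₂) :=
          Nat.mul_lt_mul_of_pos_right h4 (by positivity)
      _ = 2 ^ B := by rw [← pow_add, hB]; congr 1; ring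
      _ ≤ 2 ^ 2 ^ b := Nat.pow_le_pow_right (by norm_num) hb1.le
  have hiff : ∀ (f : BF n) (s : ℕ), MCSP n (table n f) s ↔ SizeLE n f s := by
    intro f s
    constructor
    · rintro ⟨_, f', h1, h2⟩
      rwa [Pool.Agent.H561R2.RO.table_inj n h1]
    · intro h
      exact ⟨by omega, f, rfl, h⟩
  have hk := key hbn (small n s₂) hcard w hw hsum m hm p q
    (fun k => hyes _ ((hiff _ _).2 (sizeLE_iff.2 ((cst_thr n (by omega) k).mono subset_rfl h1))))
    (fun f hf => hno f (fun h => hf (by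
      rw [small, Finset.mem_filter]
      exact ⟨Finset.mem_univ _, (hiff _ _).1 h⟩)))
  have h7 : (2 : ℝ) ^ n = 2 ^ (n - b) * 2 ^ b := by
    rw [← pow_add]
    congr 1
    omega
  have h8 : (1 : ℝ) ≤ 2 ^ r := one_le_pow₀ (by norm_num)
  have h9 : (2 : ℝ) ^ b ≤ 2 * B := by exact_mod_cast hb2
  calc (p - q) * 2 ^ n = ((p - q) * 2 ^ (n - b)) * 2 ^ b := by rw [h7]; ring
    _ ≤ (2 ^ r - 1) * 2 ^ b := mul_le_mul_of_nonneg_right hk (by positivity)
    _ ≤ (2 ^ r - 1) * (2 * B) := mul_le_mul_of_nonneg_left h9 (by linarith)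
    _ = (2 ^ r - 1) * (2 * (n * (s₂ + 2))) := by rw [hB]; push_cast; ring

end Pool.Agent.H943R6.NG
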