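import Pool.Agent.H943R6.NG.Base
import Pool.Agent.H532R2.MF.FCount
import Pool.Agent.H561R2.RO.Table

/-!
# Computations with few NOT gates and the minimum formula size problem

(helper943)
-/

namespace Pool.Agent.H943R6.NG

open Pool.Agent.H532R2.MC Pool.Agent.H532R2.MF Finset

theorem fl_tail {n s : ℕ} {g : BF n} (h : FL (Pool.Agent.H532R2.MF.vars n) g s) :
    FL (Pool.Agent.H532R2.MF.vars (n + 1)) (fun x => g (Fin.tail x)) s := by
  induction h with
  | const b => exact FL.const b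
  | @lit f b hf =>
    obtain ⟨i, rfl⟩ := hf
    exact FL.lit b ⟨i.succ, rfl⟩
  | and _ _ ih1 ih2 => exact FL.and ih1 ih2
  | or _ _ ih1 ih2 => exact FL.or ih1 ih2
  | weak _ hst ih => exact FL.weak ih hst

theorem fl_thr : ∀ (n : ℕ) (k : ℕ), FL (Pool.Agent.H532R2.MF.vars n) (thr n k) n
  | 0, k => by
    refine (FL.const (decide (0 < k))).congr fun x => ?_
    rfl
  | n + 1, k => by
    have ih := fl_thr n
    have h0 : FL (Pool.Agent.H532R2.MF.vars (n + 1)) (fun x => !x 0) 1 :=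
      FL.not (FL.of_mem ⟨0, rfl⟩)
    rcases Nat.lt_or_ge (2 ^ n) k with h | h
    · refine (FL.weak (h0.or (fl_tail (ih (k - 2 ^ n)))) (by omega)).congr fun x => ?_
      exact (thr_succ_ge h x).symm
    · refine (FL.weak (h0.and (fl_tail (ih k))) (by omega)).congr fun x => ?_
      exact (thr_succ_le h x).symm

theorem length_table : ∀ (n : ℕ) (f : BF n), (table n f).length = 2 ^ n
  | 0, f => rfl
  | n + 1, f => by
    simp only [table, List.length_append, length_table n]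
    rw [pow_succ]
    ring

theorem mfsp_bound (n k r s₁ s₂ : ℕ) (hn : 1 ≤ n) (hk : n ≤ 2 ^ k) (h1 : n ≤ s₁) (_h12 : s₁ ≤ s₂)
    (h2 : 2 * ((k + 5) * s₂ + 1) ≤ 2 ^ n) {Ω : Type} [Fintype Ω] (w : Ω → ℝ) (hw : ∀ ω, 0 ≤ w ω)
    (hsum : ∑ ω, w ω = 1) (m : Ω → List Bool → BF n → Bool) (hm : ∀ ω l, Monotone (m ω l))
    (p q : ℝ)
    (hyes : ∀ f : BF n, MFSP n (table n f) s₁ → p ≤ ∑ ω, if out r (m ω) f = true then w ω else 0)
    (hno : ∀ f : BF n, ¬ MFSP n (table n f) s₂ →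
      ∑ ω, (if out r (m ω) f = true then w ω else 0) ≤ q) :
    (p - q) * 2 ^ n ≤ (2 ^ r - 1) * (2 * ((k + 5) * s₂ + 1)) := by
  classical
  set B := (k + 5) * s₂ + 1 with hB
  have hB0 : B ≠ 0 := by omega
  set b := Nat.log 2 B + 1 with hb
  have hb1 : B < 2 ^ b := Nat.lt_pow_succ_log_self (by norm_num) B
  have hb2 : 2 ^ b ≤ 2 * B := by
    rw [hb, pow_succ]
    have := Nat.pow_log_le_self 2 hB0
    omega
  have hbn : b ≤ n := by
    have h3 : 2 ^ b ≤ 2 ^ n := hb2.trans h2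
    exact (Nat.pow_le_pow_iff_right (by norm_num)).1 h3
  have hcard : (Pool.Agent.H532R2.MF.small n s₂).card < 2 ^ 2 ^ b := by
    refine lt_of_le_of_lt (Pool.Agent.H532R2.MF.small_card n s₂ hn) ?_
    have h3 : (16 * n) ^ s₂ ≤ 2 ^ ((k + 4) * s₂) := by
      rw [pow_mul]
      apply Nat.pow_le_pow_left
      rw [pow_add]
      omega
    have h4 : s₂ + 2 ≤ 2 ^ (s₂ + 1) := by
      have := Nat.lt_two_pow_self (n := s₂ + 1)
      omega
    have h5 : 1 ≤ 2 ^ ((k + 4) * s₂) := Nat.one_le_two_pow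
    calc 2 + s₂ * (16 * n) ^ s₂ ≤ 2 * 2 ^ ((k + 4) * s₂) + s₂ * 2 ^ ((k + 4) * s₂) := by
          have := Nat.mul_le_mul_left s₂ h3
          omega
      _ = (s₂ + 2) * 2 ^ ((k + 4) * s₂) := by ring
      _ ≤ 2 ^ (s₂ + 1) * 2 ^ ((k + 4) * s₂) := Nat.mul_le_mul_right _ h4
      _ = 2 ^ B := by rw [← pow_add, hB]; congr 1; ring
      _ < 2 ^ 2 ^ b := Nat.pow_lt_pow_right (by norm_num) hb1
  have hiff : ∀ (f : BF n) (s : ℕ),
      MFSP n (table n f) s ↔ FL (Pool.Agent.H532R2.MF.vars n) f s := by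
    intro f s
    rw [fl_iff]
    constructor
    · rintro ⟨_, F, h1, h2⟩
      exact ⟨F, (Pool.Agent.H561R2.RO.table_inj n h1).symm, h2⟩
    · rintro ⟨F, rfl, h⟩
      exact ⟨length_table n _, F, rfl, h⟩
  have hk := key hbn (Pool.Agent.H532R2.MF.small n s₂) hcard w hw hsum m hm p q
    (fun k => hyes _ ((hiff _ _).2 (FL.weak (fl_thr n k) h1)))
    (fun f hf => hno f (fun h => hf (by
      rw [Pool.Agent.H532R2.MF.small, Finset.mem_filter]
      exact ⟨Finset.mem_univ _, (hiff _ _).1 h⟩)))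
  have h7 : (2 : ℝ) ^ n = 2 ^ (n - b) * 2 ^ b := by
    rw [← pow_add]
    congr 1
    omega
  have h8 : (1 : ℝ) ≤ 2 ^ r := one_le_pow₀ (by norm_num)
  have h9 : (2 : ℝ) ^ b ≤ 2 * B := by exact_mod_cast hb2
  calc (p - q) * 2 ^ n = ((p - q) * 2 ^ (n - b)) * 2 ^ b := by rw [h7]; ring
    _ ≤ (2 ^ r - 1) * 2 ^ b := mul_le_mul_of_nonneg_right hk (by positivity)
    _ ≤ (2 ^ r - 1) * (2 * B) := mul_le_mul_of_nonneg_left h9 (by linarith)
    _ = (2 ^ r - 1) * (2 * ((k + 5) * s₂ + 1)) := by rw [hB]; push_cast; ring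

end Pool.Agent.H943R6.NG
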