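import Pool.Agent.H943R6.NG.Circ

set_option autoImplicit false

/-!
# The number of NOT gates needed for the Minimum Circuit Size Problem

A computation with `r` NOT gates and arbitrary monotone gates is given by functions `m a`, one for
each list `a` of bits: `m []` is the input of the first NOT gate, `m [b₁]` the input of the second
one if the input of the first one has the value `b₁`, and so on; `m a` for `a` of length `r` is the
output. All these functions of the truth table are monotone (with respect to the pointwise order).

(helper943; the circuit model, the counting of circuits and the small circuits use the library of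
helper532.)
-/

namespace Pool.Agent.Results.MP_aba02a_lc.NotGatesNeeded

open Pool.Agent.H532R2.MC Pool.Agent.H943R6.NG

/-- Let `n ≤ s₁ ≤ s₂`. If a random computation with `r` NOT gates and arbitrary monotone gates
accepts all tables with circuit size at most `s₁` with probability at least `p`, and all tables with
circuit size greater than `s₂` with probability at most `q`, then
`(p - q) 2 ^ n ≤ (2 ^ r - 1) * 2 n (s₂ + 2)`. -/
theorem result (n r s₁ s₂ : ℕ) (hn : 48 ≤ n) (h1 : n ≤ s₁) (h12 : s₁ ≤ s₂)
    (h2 : 2 * (n * (s₂ + 2)) ≤ 2 ^ n) {Ω : Type} [Fintype Ω] (w : Ω → ℝ) (hw : ∀ ω, 0 ≤ w ω)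
    (hsum : ∑ ω, w ω = 1) (m : Ω → List Bool → BF n → Bool) (hm : ∀ ω a, Monotone (m ω a))
    (p q : ℝ)
    (hyes : ∀ f : BF n, MCSP n (table n f) s₁ → p ≤ ∑ ω, if out r (m ω) f = true then w ω else 0)
    (hno : ∀ f : BF n, ¬ MCSP n (table n f) s₂ →
      ∑ ω, (if out r (m ω) f = true then w ω else 0) ≤ q) :
    (p - q) * 2 ^ n ≤ (2 ^ r - 1) * (2 * (n * (s₂ + 2))) :=
  mcsp_bound n r s₁ s₂ hn h1 h12 h2 w hw hsum m hm p q hyes hno

end Pool.Agent.Results.MP_aba02a_lc.NotGatesNeeded
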